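import Pool.Agent.Q135.Nim

/-!
The subtraction set `{2,3,5,8,9,10}`: the nim-sequence has period 26 and its zero-indicator has
period 13.
-/

namespace Pool.Agent.Results.MP_052694_co.PeriodCounterexample

open Q135.Nim

/-- The zero-indicator of a sequence. -/
def zeroInd (g : ℕ → ℕ) (n : ℕ) : ℕ := if g n = 0 then 0 else 1

/-- One period of the nim-sequence. -/
def tab : List ℕ :=
  [0, 0, 1, 1, 2, 2, 3, 0, 4, 1, 3, 2, 4, 0, 0, 1, 1, 2, 2, 4, 0, 3, 1, 4, 2, 3]

/-- The purely periodic sequence with period `tab`. -/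
def f (n : ℕ) : ℕ := tab.getD (n % 26) 0

theorem f_add (n : ℕ) : f (n + 26) = f n := by simp [f]

theorem f_add_mul (n k : ℕ) : f (n + 26 * k) = f n := by simp [f]

theorem zf_add_mul (n k : ℕ) : zeroInd f (n + 26 * k) = zeroInd f n := by
  simp [zeroInd, f_add_mul]

theorem check1 : ∀ n < 52, ∀ s ∈ ({2, 3, 5, 8, 9, 10} : Finset ℕ), 0 < s → s ≤ n →
    f (n - s) ≠ f n := by decide

theorem check2 : ∀ n < 52, ∀ m < f n, ∃ s ∈ ({2, 3, 5, 8, 9, 10} : Finset ℕ), 0 < s ∧ s ≤ n ∧
    f (n - s) = m := by decide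

theorem small (s : ℕ) (hs : s ∈ ({2, 3, 5, 8, 9, 10} : Finset ℕ)) : s ≤ 10 := by
  revert s; decide

theorem nim_f (n : ℕ) : nim {2, 3, 5, 8, 9, 10} n = f n := by
  apply nim_eq
  · intro n s hs h0 hle
    by_cases hn : n < 52
    · exact check1 n hn s hs h0 hle
    · have hs10 := small s hs
      have e1 : n = (n % 26 + 26) + 26 * (n / 26 - 1) := by omega
      have e2 : n - s = (n % 26 + 26 - s) + 26 * (n / 26 - 1) := by omega
      rw [e2, f_add_mul]
      nth_rewrite 2 [e1]
      rw [f_add_mul]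
      exact check1 _ (by omega) s hs h0 (by omega)
  · intro n m hm
    by_cases hn : n < 52
    · exact check2 n hn m hm
    · have e1 : n = (n % 26 + 26) + 26 * (n / 26 - 1) := by omega
      rw [e1, f_add_mul] at hm
      obtain ⟨s, hs, h0, hle, he⟩ := check2 _ (by omega) m hm
      refine ⟨s, hs, h0, by omega, ?_⟩
      have hs10 := small s hs
      have e2 : n - s = (n % 26 + 26 - s) + 26 * (n / 26 - 1) := by omega
      rw [e2, f_add_mul]
      exact he

/-- Shift an eventual statement into a residue class. -/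
theorem exists_large (n₀ r : ℕ) : ∃ n, n₀ ≤ n ∧ ∃ k, n = r + 26 * k :=
  ⟨r + 26 * n₀, by omega, n₀, rfl⟩

theorem nonper : ∀ p < 26, 1 ≤ p → ∃ r < 26, f (r + p) ≠ f r := by decide

theorem nonper' : ∀ p < 13, 1 ≤ p → ∃ r < 26, zeroInd f (r + p) ≠ zeroInd f r := by decide

theorem per' : ∀ r < 26, zeroInd f (r + 13) = zeroInd f r := by decide

/-- The nim-sequence of the subtraction game with subtraction set `{2,3,5,8,9,10}` has period 26,
and its zero-indicator has period 13. -/
theorem result :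
    IsLeast {p | IsUltPeriod (nim {2, 3, 5, 8, 9, 10}) p} 26 ∧
    IsLeast {p | IsUltPeriod (zeroInd (nim {2, 3, 5, 8, 9, 10})) p} 13 := by
  have hf : nim {2, 3, 5, 8, 9, 10} = f := funext nim_f
  rw [hf]
  refine ⟨⟨⟨by norm_num, 0, fun n _ => f_add n⟩, ?_⟩, ⟨⟨by norm_num, 0, ?_⟩, ?_⟩⟩
  · rintro p ⟨hp, n₀, h⟩
    by_contra hlt
    push Not at hlt
    obtain ⟨r, -, hr⟩ := nonper p hlt hp
    apply hr
    obtain ⟨n, hn, k, rfl⟩ := exists_large n₀ r
    have := h _ hn
    rw [show r + 26 * k + p = (r + p) + 26 * k by omega, f_add_mul, f_add_mul] at this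
    exact this
  · intro n _
    have e1 : n = n % 26 + 26 * (n / 26) := by omega
    have e2 : n + 13 = (n % 26 + 13) + 26 * (n / 26) := by omega
    have h3 := per' (n % 26) (by omega)
    calc zeroInd f (n + 13) = zeroInd f ((n % 26 + 13) + 26 * (n / 26)) := by rw [← e2]
      _ = zeroInd f (n % 26 + 13) := zf_add_mul _ _
      _ = zeroInd f (n % 26) := h3
      _ = zeroInd f (n % 26 + 26 * (n / 26)) := (zf_add_mul _ _).symm
      _ = zeroInd f n := by rw [← e1]
  · rintro p ⟨hp, n₀, h⟩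
    by_contra hlt
    push Not at hlt
    obtain ⟨r, -, hr⟩ := nonper' p hlt hp
    apply hr
    obtain ⟨n, hn, k, rfl⟩ := exists_large n₀ r
    have := h _ hn
    rw [show r + 26 * k + p = (r + p) + 26 * k by omega, zf_add_mul, zf_add_mul] at this
    exact this

end Pool.Agent.Results.MP_052694_co.PeriodCounterexample
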